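import Mathlib

/-!
# MP_b931a8_co: oriented trees of bounded degree missing from tournaments

Let `Δ ≥ 3`, `h = Δ - 1` and `k ≥ 2 Δ - 1`, so that `m = k - 2 h ≥ 1`. The tree `T` is a directed path with `m` edges,
whose first vertex receives arcs from `h` leaves and whose last vertex sends arcs to `h` leaves. It has `k` edges and
maximum degree `h + 1 = Δ`. The tournament `H` consists of a regular tournament `C` on `2 h - 1` vertices, a transitive
tournament `A` on `m` vertices and a regular tournament `B` on `2 h - 1` vertices, with all arcs directed from `C` to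
`A ∪ B` and from `A` to `B`. It has `m + 4 h - 2 = k + 2 Δ - 4` vertices and does not contain `T`: the first vertex of
the path cannot be in `C`, the last one cannot be in `B`, so that all the `m + 1` vertices of the path would be in `A`.
-/

set_option autoImplicit false

namespace Pool.Agent.Results.MP_b931a8_co.OneMoreVertex

open Finset

/-- A connected graph in which every edge joins a vertex to its parent is a tree. -/
theorem isTree_of_parent {V : Type} (T : SimpleGraph V) (β : V → ℕ) (par : V → V)
    (h : ∀ u v, T.Adj u v → (β v < β u ∧ v = par u) ∨ (β u < β v ∧ u = par v)) (hc : T.Connected) :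
    T.IsTree := by
  classical
  refine ⟨hc, fun v c hcyc => ?_⟩
  obtain ⟨u, hu, hmax⟩ := c.support.toFinset.exists_max_image β
    ⟨v, List.mem_toFinset.2 c.start_mem_support⟩
  have hu' : u ∈ c.support := List.mem_toFinset.1 hu
  have hc' := hcyc.rotate hu'
  have hmax' : ∀ w ∈ (c.rotate u hu').support, β w ≤ β u := fun w hw =>
    hmax w (List.mem_toFinset.2 ((SimpleGraph.Walk.mem_support_rotate_iff c u hu').1 hw))
  have hnil := hc'.not_nil
  have a1 := (c.rotate u hu').adj_snd hnil
  have a2 := (c.rotate u hu').adj_penultimate hnil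
  have b1 := hmax' _ ((c.rotate u hu').getVert_mem_support 1)
  have b2 := hmax' _ ((c.rotate u hu').getVert_mem_support ((c.rotate u hu').length - 1))
  have e1 : (c.rotate u hu').snd = par u := by
    rcases h _ _ a1 with h1 | h1
    · exact h1.2
    · exact absurd h1.1 (not_lt.2 b1)
  have e2 : (c.rotate u hu').penultimate = par u := by
    rcases h _ _ a2 with h1 | h1
    · exact absurd h1.1 (not_lt.2 b2)
    · exact h1.2
  exact hc'.snd_ne_penultimate (e1.trans e2.symm)

/-- The tree: vertices `0, …, m` form a directed path, `m + 1, …, m + h` send arcs to `0`, and `m` sends arcs to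
`m + h + 1, …, k`. -/
def tree (h m k : ℕ) : Digraph (Fin (k + 1)) where
  Adj a b := (b.val = a.val + 1 ∧ b.val ≤ m) ∨ (m < a.val ∧ a.val ≤ m + h ∧ b.val = 0) ∨
    (a.val = m ∧ m + h < b.val)

/-- Arcs of a regular tournament on `0, …, 2 h - 2`: from `x` to `x + 1, …, x + h - 1` modulo `2 h - 1`. -/
def Reg (h x y : ℕ) : Prop := (x < y ∧ y - x < h) ∨ (y < x ∧ h ≤ x - y)

/-- The tournament `C ⇒ A ⇒ B`, with `C`, `B` regular on `2 h - 1` vertices and `A` transitive on `m` vertices. -/
def tour (h m N : ℕ) : Digraph (Fin N) where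
  Adj a b := (a.val < 2 * h - 1 ∧ b.val < 2 * h - 1 ∧ Reg h a.val b.val) ∨
    (a.val < 2 * h - 1 ∧ 2 * h - 1 ≤ b.val) ∨
    (2 * h - 1 ≤ a.val ∧ b.val < 2 * h - 1 + m ∧ a.val < b.val) ∨
    (2 * h - 1 ≤ a.val ∧ a.val < 2 * h - 1 + m ∧ 2 * h - 1 + m ≤ b.val) ∨
    (2 * h - 1 + m ≤ a.val ∧ 2 * h - 1 + m ≤ b.val ∧ Reg h a.val b.val)

theorem tree_isTree {h m k : ℕ} (hm : 1 ≤ m) (hk : k = m + 2 * h) :
    (SimpleGraph.fromRel (tree h m k).Adj).IsTree := by
  have hpl : ∀ u : Fin (k + 1), (if u.val ≤ m then u.val - 1 else if u.val ≤ m + h then 0 else m) < k + 1 := by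
    intro u
    split_ifs <;> omega
  let par : Fin (k + 1) → Fin (k + 1) := fun u =>
    ⟨if u.val ≤ m then u.val - 1 else if u.val ≤ m + h then 0 else m, hpl u⟩
  have hpar : ∀ u : Fin (k + 1), u.val ≠ 0 → (SimpleGraph.fromRel (tree h m k).Adj).Adj u (par u) ∧
      (par u).val < u.val := by
    intro u hu
    have hlt : (par u).val < u.val := by
      show (if u.val ≤ m then u.val - 1 else if u.val ≤ m + h then 0 else m) < u.val
      split_ifs <;> omega
    refine ⟨?_, hlt⟩
    rw [SimpleGraph.fromRel_adj]
    refine ⟨fun he => by rw [← he] at hlt; exact lt_irrefl _ hlt, ?_⟩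
    have hval : (par u).val = if u.val ≤ m then u.val - 1 else if u.val ≤ m + h then 0 else m := rfl
    simp only [tree]
    split_ifs at hval with h1 h2
    · right; left; omega
    · left; right; left; omega
    · right; right; right; omega
  apply isTree_of_parent _ (fun u => u.val) par
  · intro u v huv
    rw [SimpleGraph.fromRel_adj] at huv
    obtain ⟨hne, huv⟩ := huv
    have hne' : u.val ≠ v.val := fun he => hne (Fin.ext he)
    have hu : (par u).val = if u.val ≤ m then u.val - 1 else if u.val ≤ m + h then 0 else m := rfl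
    have hv : (par v).val = if v.val ≤ m then v.val - 1 else if v.val ≤ m + h then 0 else m := rfl
    simp only [tree] at huv
    rcases Nat.lt_or_gt_of_ne hne' with hlt | hlt
    · right
      refine ⟨hlt, Fin.ext ?_⟩
      rw [hv]
      split_ifs <;> omega
    · left
      refine ⟨hlt, Fin.ext ?_⟩
      rw [hu]
      split_ifs <;> omega
  · have hreach : ∀ (n : ℕ) (u : Fin (k + 1)), u.val = n →
        (SimpleGraph.fromRel (tree h m k).Adj).Reachable ⟨0, by omega⟩ u := by
      intro n
      induction n using Nat.strong_induction_on with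
      | _ n ih =>
        intro u hu
        by_cases h0 : u.val = 0
        · have : u = ⟨0, by omega⟩ := Fin.ext h0
          rw [this]
        · obtain ⟨h1, h2⟩ := hpar u h0
          exact (ih _ (by omega) (par u) rfl).trans h1.symm.reachable
    have : Nonempty (Fin (k + 1)) := ⟨⟨0, by omega⟩⟩
    exact ⟨fun u v => (hreach _ u rfl).symm.trans (hreach _ v rfl)⟩

theorem tree_degree {h m k : ℕ} (hm : 1 ≤ m) (hh : 2 ≤ h) (hk : k = m + 2 * h) (a : Fin (k + 1)) :
    ((SimpleGraph.fromRel (tree h m k).Adj).neighborSet a).ncard ≤ h + 1 := by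
  classical
  have key : ∀ s : Finset ℕ, (∀ b : Fin (k + 1), (SimpleGraph.fromRel (tree h m k).Adj).Adj a b → b.val ∈ s) →
      ((SimpleGraph.fromRel (tree h m k).Adj).neighborSet a).ncard ≤ s.card := by
    intro s hs
    have h1 : (Fin.val '' ((SimpleGraph.fromRel (tree h m k).Adj).neighborSet a)).ncard =
        ((SimpleGraph.fromRel (tree h m k).Adj).neighborSet a).ncard :=
      Set.ncard_image_of_injective _ Fin.val_injective
    rw [← h1, ← Set.ncard_coe_finset s]
    apply Set.ncard_le_ncard _ s.finite_toSet
    rintro _ ⟨b, hb, rfl⟩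
    exact hs b hb
  by_cases h0 : a.val = 0
  · refine (key (Finset.Icc (m + 1) (m + h) ∪ {1}) ?_).trans ?_
    · intro b hb
      rw [SimpleGraph.fromRel_adj] at hb
      simp only [tree] at hb
      simp only [Finset.mem_union, Finset.mem_Icc, Finset.mem_singleton]
      omega
    · refine (Finset.card_union_le _ _).trans ?_
      simp
  · by_cases h1 : a.val = m
    · refine (key (Finset.Icc (m + h + 1) (m + 2 * h) ∪ {m - 1}) ?_).trans ?_
      · intro b hb
        rw [SimpleGraph.fromRel_adj] at hb
        simp only [tree] at hb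
        simp only [Finset.mem_union, Finset.mem_Icc, Finset.mem_singleton]
        have := b.isLt
        omega
      · refine (Finset.card_union_le _ _).trans ?_
        simp only [Nat.card_Icc, Finset.card_singleton]
        omega
    · refine (key (if a.val < m then {a.val - 1, a.val + 1} else if a.val ≤ m + h then {0} else {m}) ?_).trans ?_
      · intro b hb
        rw [SimpleGraph.fromRel_adj] at hb
        simp only [tree] at hb
        split_ifs with h2 h3
        · simp only [Finset.mem_insert, Finset.mem_singleton]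
          omega
        · simp only [Finset.mem_singleton]
          omega
        · simp only [Finset.mem_singleton]
          omega
      · split_ifs with h2 h3
        · exact (Finset.card_le_two).trans (by omega)
        · simp
        · simp

theorem tree_in {h m k : ℕ} (i : ℕ) (hi : i < h) (h1 : m + 1 + i < k + 1) (h0 : 0 < k + 1) :
    (tree h m k).Adj ⟨m + 1 + i, h1⟩ ⟨0, h0⟩ :=
  Or.inr (Or.inl ⟨by show m < m + 1 + i; omega, by show m + 1 + i ≤ m + h; omega, rfl⟩)

theorem tree_path {h m k : ℕ} (j : ℕ) (hj : j + 1 ≤ m) (h1 : j < k + 1) (h2 : j + 1 < k + 1) :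
    (tree h m k).Adj ⟨j, h1⟩ ⟨j + 1, h2⟩ :=
  Or.inl ⟨rfl, hj⟩

theorem tree_out {h m k : ℕ} (i : ℕ) (h1 : m < k + 1) (h2 : m + h + 1 + i < k + 1) :
    (tree h m k).Adj ⟨m, h1⟩ ⟨m + h + 1 + i, h2⟩ :=
  Or.inr (Or.inr ⟨rfl, by show m + h < m + h + 1 + i; omega⟩)

/-- In a regular tournament on `2 h - 1` vertices no vertex has `h` out-neighbours. -/
theorem no_out {h c x : ℕ} (hh : 2 ≤ h) (hx : c ≤ x ∧ x < c + (2 * h - 1)) (g : Fin h → ℕ)
    (hg : Function.Injective g)
    (hr : ∀ i, c ≤ g i ∧ g i < c + (2 * h - 1) ∧ Reg h x (g i)) : False := by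
  let φ : Fin h → ℕ := fun i => if x < g i then g i - x else g i + (2 * h - 1) - x
  have hmaps : ∀ i ∈ (Finset.univ : Finset (Fin h)), φ i ∈ Finset.Icc 1 (h - 1) := by
    intro i _
    obtain ⟨h1, h2, h3⟩ := hr i
    show (if x < g i then g i - x else g i + (2 * h - 1) - x) ∈ _
    rw [Finset.mem_Icc]
    unfold Reg at h3
    split_ifs <;> omega
  have hcard : (Finset.Icc 1 (h - 1)).card < (Finset.univ : Finset (Fin h)).card := by
    rw [Nat.card_Icc, Finset.card_univ, Fintype.card_fin]
    omega
  obtain ⟨i, _, j, _, hij, he⟩ := Finset.exists_ne_map_eq_of_card_lt_of_maps_to hcard hmaps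
  apply hij
  apply hg
  obtain ⟨h1, h2, h3⟩ := hr i
  obtain ⟨h4, h5, h6⟩ := hr j
  have he' : (if x < g i then g i - x else g i + (2 * h - 1) - x) =
    (if x < g j then g j - x else g j + (2 * h - 1) - x) := he
  unfold Reg at h3 h6
  split_ifs at he' <;> omega

/-- In a regular tournament on `2 h - 1` vertices no vertex has `h` in-neighbours. -/
theorem no_in {h c x : ℕ} (hh : 2 ≤ h) (hx : c ≤ x ∧ x < c + (2 * h - 1)) (g : Fin h → ℕ)
    (hg : Function.Injective g)
    (hr : ∀ i, c ≤ g i ∧ g i < c + (2 * h - 1) ∧ Reg h (g i) x) : False := by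
  let φ : Fin h → ℕ := fun i => if g i < x then x - g i else x + (2 * h - 1) - g i
  have hmaps : ∀ i ∈ (Finset.univ : Finset (Fin h)), φ i ∈ Finset.Icc 1 (h - 1) := by
    intro i _
    obtain ⟨h1, h2, h3⟩ := hr i
    show (if g i < x then x - g i else x + (2 * h - 1) - g i) ∈ _
    rw [Finset.mem_Icc]
    unfold Reg at h3
    split_ifs <;> omega
  have hcard : (Finset.Icc 1 (h - 1)).card < (Finset.univ : Finset (Fin h)).card := by
    rw [Nat.card_Icc, Finset.card_univ, Fintype.card_fin]
    omega
  obtain ⟨i, _, j, _, hij, he⟩ := Finset.exists_ne_map_eq_of_card_lt_of_maps_to hcard hmaps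
  apply hij
  apply hg
  obtain ⟨h1, h2, h3⟩ := hr i
  obtain ⟨h4, h5, h6⟩ := hr j
  have he' : (if g i < x then x - g i else x + (2 * h - 1) - g i) =
    (if g j < x then x - g j else x + (2 * h - 1) - g j) := he
  unfold Reg at h3 h6
  split_ifs at he' <;> omega

/-- **Counterexamples to Q1 for every `Δ ≥ 3` and every `k ≥ 2 Δ - 1`.** There are an oriented tree `T` with `k` edges
(on `k + 1` vertices) of maximum degree at most `Δ` and a tournament `H` on `k + 2 Δ - 4` vertices which does not
contain `T`. -/
theorem result (Δ : ℕ) (hΔ : 3 ≤ Δ) (k : ℕ) (hk : 2 * Δ - 1 ≤ k) :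
    ∃ T : Digraph (Fin (k + 1)),
      (∀ a b, T.Adj a b → ¬ T.Adj b a) ∧
      (SimpleGraph.fromRel T.Adj).IsTree ∧
      (∀ a, ((SimpleGraph.fromRel T.Adj).neighborSet a).ncard ≤ Δ) ∧
      ∃ H : Digraph (Fin (k + 2 * Δ - 4)),
        (∀ u v, H.Adj u v → ¬ H.Adj v u) ∧
        (∀ u v, u ≠ v → H.Adj u v ∨ H.Adj v u) ∧
        ¬ ∃ f : Fin (k + 1) → Fin (k + 2 * Δ - 4),
          Function.Injective f ∧ ∀ a b, T.Adj a b → H.Adj (f a) (f b) := by
  obtain ⟨h, rfl⟩ : ∃ h, Δ = h + 1 := ⟨Δ - 1, by omega⟩
  obtain ⟨m, hm⟩ : ∃ m, k = m + 2 * h := ⟨k - 2 * h, by omega⟩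
  have hh : 2 ≤ h := by omega
  have hm1 : 1 ≤ m := by omega
  refine ⟨tree h m k, ?_, tree_isTree hm1 hm, fun a => tree_degree hm1 hh hm a, tour h m _, ?_, ?_, ?_⟩
  · intro a b hab hba
    simp only [tree] at hab hba
    omega
  · intro u v huv hvu
    simp only [tour, Reg] at huv hvu
    rcases huv with h1 | h1 | h1 | h1 | h1 <;> rcases hvu with h2 | h2 | h2 | h2 | h2 <;> omega
  · intro u v huv
    have hne : u.val ≠ v.val := fun he => huv (Fin.ext he)
    have h1 := u.isLt
    have h2 := v.isLt
    simp only [tour, Reg]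
    by_cases c1 : u.val < 2 * h - 1
    · by_cases c2 : v.val < 2 * h - 1
      · omega
      · left; right; left; omega
    · by_cases c2 : v.val < 2 * h - 1
      · right; right; left; omega
      · by_cases c3 : u.val < 2 * h - 1 + m
        · by_cases c4 : v.val < 2 * h - 1 + m
          · omega
          · left; right; right; right; left; omega
        · by_cases c4 : v.val < 2 * h - 1 + m
          · right; right; right; right; left; omega
          · omega
  · rintro ⟨f, hf, hadj⟩
    have hN : k + 2 * (h + 1) - 4 = 2 * h - 1 + m + (2 * h - 1) := by omega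
    -- the first vertex of the path is not in `C`
    have hfirst : 2 * h - 1 ≤ (f ⟨0, by omega⟩).val := by
      by_contra hcon
      push Not at hcon
      refine no_in (c := 0) (x := (f ⟨0, by omega⟩).val) hh ⟨by omega, by omega⟩
        (fun i : Fin h => (f ⟨m + 1 + i.val, by omega⟩).val) ?_ ?_
      · intro i j hij
        have h1 := hf (Fin.ext hij)
        have h2 := congrArg Fin.val h1
        simp only at h2
        exact Fin.ext (by omega)
      · intro i
        have h1 := hadj _ _ (tree_in (h := h) (m := m) (k := k) i.val i.isLt (by omega) (by omega))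
        simp only [tour] at h1
        have h2 : (f ⟨m + 1 + i.val, by omega⟩).val < 2 * h - 1 := by omega
        refine ⟨by omega, by omega, ?_⟩
        rcases h1 with h1 | h1 | h1 | h1 | h1
        · exact h1.2.2
        all_goals omega
    -- the last vertex of the path is not in `B`
    have hlast : (f ⟨m, by omega⟩).val < 2 * h - 1 + m := by
      by_contra hcon
      push Not at hcon
      have hlt := (f ⟨m, by omega⟩).isLt
      refine no_out (c := 2 * h - 1 + m) (x := (f ⟨m, by omega⟩).val) hh ⟨by omega, by omega⟩
        (fun i : Fin h => (f ⟨m + h + 1 + i.val, by omega⟩).val) ?_ ?_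
      · intro i j hij
        have h1 := hf (Fin.ext hij)
        have h2 := congrArg Fin.val h1
        simp only at h2
        exact Fin.ext (by omega)
      · intro i
        have h1 := hadj _ _ (tree_out (h := h) (m := m) (k := k) i.val (by omega) (by omega))
        have h3 := (f ⟨m + h + 1 + i.val, by omega⟩).isLt
        simp only [tour] at h1
        have h2 : 2 * h - 1 + m ≤ (f ⟨m + h + 1 + i.val, by omega⟩).val := by omega
        refine ⟨h2, by omega, ?_⟩
        rcases h1 with h1 | h1 | h1 | h1 | h1
        · omega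
        · omega
        · omega
        · omega
        · exact h1.2.2
    -- all the vertices of the path are in `A`
    have hup : ∀ j (hj : j ≤ m), 2 * h - 1 ≤ (f ⟨j, by omega⟩).val := by
      intro j
      induction j with
      | zero => intro _; exact hfirst
      | succ j ih =>
        intro hj
        have h1 := ih (by omega)
        have h2 := hadj _ _ (tree_path (h := h) (m := m) (k := k) j hj (by omega) (by omega))
        simp only [tour] at h2
        omega
    have hdown : ∀ i j (hj : j + i = m), (f ⟨j, by omega⟩).val < 2 * h - 1 + m := by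
      intro i
      induction i with
      | zero =>
        intro j hj
        obtain rfl : j = m := by omega
        exact hlast
      | succ i ih =>
        intro j hj
        have h1 := ih (j + 1) (by omega)
        have h2 := hadj _ _ (tree_path (h := h) (m := m) (k := k) j (by omega) (by omega) (by omega))
        simp only [tour] at h2
        omega
    have hinc : ∀ j (hj : j ≤ m), 2 * h - 1 + j ≤ (f ⟨j, by omega⟩).val := by
      intro j
      induction j with
      | zero => intro _; exact hfirst
      | succ j ih =>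
        intro hj
        have h1 := ih (by omega)
        have h2 := hadj _ _ (tree_path (h := h) (m := m) (k := k) j hj (by omega) (by omega))
        have h3 := hdown (m - (j + 1)) (j + 1) (by omega)
        simp only [tour] at h2
        omega
    have h5 := hinc m le_rfl
    omega

end Pool.Agent.Results.MP_b931a8_co.OneMoreVertex
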